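import Mathlib
import Pool.Agent.PNT.Main

set_option autoImplicit false

/-!
# Wiener-Ikehara for sequences dominated by the von Mangoldt function, and the prime number
# theorem in arithmetic progressions

Main results: `wiener_ikehara`, `tendsto_residueClass_div` (`ψ(x; q, a) / x → 1 / φ(q)`),
`tendsto_theta_class_div`, `tendsto_primeCounting_class` (`π(x; q, a) log x / x → 1 / φ(q)`).
-/

namespace Pool.Agent.PNTAP

open MeasureTheory Filter Topology Set Complex Chebyshev Pool.Agent.PNT

open ArithmeticFunction (vonMangoldt)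

section WI

variable {a : ℕ → ℝ}

/-- The summatory function. -/
noncomputable def SA (a : ℕ → ℝ) (x : ℝ) : ℝ := ∑ n ∈ Finset.Ioc 0 ⌊x⌋₊, a n

lemma SA_nonneg (h0 : ∀ n, 0 ≤ a n) (x : ℝ) : 0 ≤ SA a x := Finset.sum_nonneg fun n _ => h0 n

lemma SA_le (hle : ∀ n, a n ≤ vonMangoldt n) (x : ℝ) : SA a x ≤ psi x :=
  Finset.sum_le_sum fun n _ => hle n

lemma SA_mono (h0 : ∀ n, 0 ≤ a n) : Monotone (SA a) := by
  intro x y hxy
  refine Finset.sum_le_sum_of_subset_of_nonneg ?_ (fun n _ _ => h0 n)
  exact Finset.Ioc_subset_Ioc le_rfl (Nat.floor_mono hxy)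

/-- the normalised summatory function on the logarithmic scale -/
noncomputable def BA (a : ℕ → ℝ) (c u : ℝ) : ℝ := SA a (Real.exp u) * Real.exp (-u) / c

variable {c : ℝ}

theorem BA_nonneg (h0 : ∀ n, 0 ≤ a n) (hc : 0 < c) (u : ℝ) : 0 ≤ BA a c u :=
  div_nonneg (mul_nonneg (SA_nonneg h0 _) (Real.exp_pos _).le) hc.le

theorem BA_le (hle : ∀ n, a n ≤ vonMangoldt n) (hc : 0 < c) (u : ℝ) :
    BA a c u ≤ (Real.log 4 + 4) / c := by
  unfold BA
  have h := psi_le_const_mul_self (Real.exp_pos u).le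
  gcongr
  calc SA a (Real.exp u) * Real.exp (-u) ≤ (Real.log 4 + 4) * Real.exp u * Real.exp (-u) :=
        mul_le_mul_of_nonneg_right ((SA_le hle _).trans h) (Real.exp_pos _).le
    _ = Real.log 4 + 4 := by rw [mul_assoc, ← Real.exp_add]; simp

theorem measurable_BA (h0 : ∀ n, 0 ≤ a n) : Measurable (BA a c) := by
  unfold BA
  exact (((SA_mono h0).measurable.comp Real.measurable_exp).mul
    (Real.measurable_exp.comp measurable_neg)).div_const c

theorem BA_mono (h0 : ∀ n, 0 ≤ a n) (hc : 0 < c) (u u' : ℝ) (h : u ≤ u') :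
    BA a c u * Real.exp (-(u' - u)) ≤ BA a c u' := by
  unfold BA
  rw [div_mul_eq_mul_div, mul_assoc, ← Real.exp_add]
  have : -u + -(u' - u) = -u' := by ring
  rw [this]
  gcongr
  exact SA_mono h0 (Real.exp_le_exp.2 h)

theorem sum_eq_SA (t : ℝ) :
    ∑ k ∈ Finset.Icc 1 ⌊t⌋₊, ((a k : ℝ) : ℂ) = ((SA a t : ℝ) : ℂ) := by
  unfold SA
  push_cast
  rfl

theorem laplace_BA (h0 : ∀ n, 0 ≤ a n) (hle : ∀ n, a n ≤ vonMangoldt n) {s : ℂ} (hs : 0 < s.re) :
    ∫ u in Ioi (0 : ℝ), (BA a c u : ℂ) * exp (-s * u) =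
      LSeries (fun n => ((a n : ℝ) : ℂ)) (s + 1) / (s + 1) / c := by
  have hs1 : (1 : ℝ) < (s + 1).re := by simpa using hs
  have hs0 : s + 1 ≠ 0 := by
    intro h
    rw [h] at hs1
    norm_num at hs1
  have hO : (fun n : ℕ => ∑ k ∈ Finset.Icc 1 n, a k)
      =O[atTop] fun n : ℕ => (n : ℝ) ^ (1 : ℝ) := by
    apply Asymptotics.IsBigO.of_bound (Real.log 4 + 4)
    filter_upwards with n
    have h1 : ∑ k ∈ Finset.Icc 1 n, a k = SA a n := by
      unfold SA
      rw [Nat.floor_natCast]
      rfl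
    rw [h1, Real.rpow_one, Real.norm_eq_abs, Real.norm_eq_abs, abs_of_nonneg (SA_nonneg h0 _),
      abs_of_nonneg (Nat.cast_nonneg n)]
    exact (SA_le hle _).trans (psi_le_const_mul_self (Nat.cast_nonneg n))
  have h1 := LSeries_eq_mul_integral_of_nonneg a zero_le_one hs1 hO h0
  have h3 : ∫ t in Ioi (1 : ℝ), (∑ k ∈ Finset.Icc 1 ⌊t⌋₊,
      ((a k : ℝ) : ℂ)) * (t : ℂ) ^ (-(s + 1 + 1)) =
      LSeries (fun n => ((a n : ℝ) : ℂ)) (s + 1) / (s + 1) := by
    rw [eq_div_iff hs0, mul_comm, ← h1]
  rw [← h3]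
  have himg : Real.exp '' (Ioi (0 : ℝ)) = Ioi 1 := by
    ext x
    constructor
    · rintro ⟨u, hu, rfl⟩
      exact Real.one_lt_exp_iff.2 hu
    · intro hx
      exact ⟨Real.log x, Real.log_pos hx, Real.exp_log (lt_trans one_pos hx)⟩
  rw [← himg, integral_image_eq_integral_abs_deriv_smul measurableSet_Ioi
    (fun x _ => (Real.hasDerivAt_exp x).hasDerivWithinAt) Real.exp_injective.injOn]
  rw [← integral_div]
  apply setIntegral_congr_fun measurableSet_Ioi
  intro u _
  simp only [sum_eq_SA, abs_of_pos (Real.exp_pos u)]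
  unfold BA
  have e1 : ((Real.exp u : ℝ) : ℂ) ^ (-(s + 1 + 1)) = exp (-(s + 1 + 1) * u) := by
    rw [Complex.cpow_def_of_ne_zero (by exact_mod_cast (Real.exp_pos u).ne'),
      ← Complex.ofReal_log (Real.exp_pos u).le, Real.log_exp, mul_comm]
  rw [e1, Complex.real_smul]
  push_cast
  have e2 : cexp (-u) * exp (-s * u) = cexp u * exp (-(s + 1 + 1) * u) := by
    rw [← Complex.exp_add, ← Complex.exp_add]
    congr 1
    ring
  calc ((SA a (Real.exp u) : ℝ) : ℂ) * cexp (-u) / c * cexp (-s * u)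
      = ((SA a (Real.exp u) : ℝ) : ℂ) * (cexp (-u) * cexp (-s * u)) / c := by ring
    _ = _ := by rw [e2]; ring

/-- the Laplace transform of `BA - 1` -/
noncomputable def HA (G : ℂ → ℂ) (c : ℝ) (s : ℂ) : ℂ := (G (s + 1) / c - 1) / (s + 1)

theorem continuousOn_HA {G : ℂ → ℂ} (hG : ContinuousOn G {z | 1 ≤ z.re}) :
    ContinuousOn (HA G c) {s | 0 ≤ s.re} := by
  unfold HA
  refine ContinuousOn.div ?_ (by fun_prop) ?_
  · refine ContinuousOn.sub (ContinuousOn.div_const ?_ _) continuousOn_const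
    refine hG.comp (by fun_prop) ?_
    intro s hs
    simpa using hs
  · intro s hs h
    have : (s + 1).re = 0 := by rw [h]; rfl
    simp only [add_re, one_re] at this
    have h2 : (0 : ℝ) ≤ s.re := hs
    linarith

theorem laplace_BA_sub_one (h0 : ∀ n, 0 ≤ a n) (hle : ∀ n, a n ≤ vonMangoldt n) (hc : 0 < c)
    {G : ℂ → ℂ}
    (hGe : ∀ z : ℂ, 1 < z.re → G z = LSeries (fun n => ((a n : ℝ) : ℂ)) z - c / (z - 1))
    {s : ℂ} (hs : 0 < s.re) :
    ∫ u in Ioi (0 : ℝ), ((BA a c u - 1 : ℝ) : ℂ) * exp (-s * u) = HA G c s := by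
  have hs1 : (1 : ℝ) < (s + 1).re := by simpa using hs
  have hs0 : s ≠ 0 := by rintro rfl; simp at hs
  have hs0' : s + 1 ≠ 0 := by
    intro h
    rw [h] at hs1
    norm_num at hs1
  have hre : (-s).re < 0 := by simpa using hs
  have hi : IntegrableOn (fun u : ℝ => exp (-s * u)) (Ioi 0) :=
    integrableOn_exp_mul_complex_Ioi hre 0
  have hi' : IntegrableOn (fun u : ℝ => (BA a c u : ℂ) * exp (-s * u)) (Ioi 0) := by
    refine Integrable.bdd_mul (c := (Real.log 4 + 4) / c) hi ?_ ?_
    · exact (Complex.measurable_ofReal.comp (measurable_BA h0)).aestronglyMeasurable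
    · filter_upwards with u
      rw [Complex.norm_real, Real.norm_eq_abs, abs_of_nonneg (BA_nonneg h0 hc u)]
      exact BA_le hle hc u
  have e : ∀ u : ℝ, ((BA a c u - 1 : ℝ) : ℂ) * exp (-s * u) =
      (BA a c u : ℂ) * exp (-s * u) - exp (-s * u) := by
    intro u; push_cast; ring
  simp_rw [e]
  rw [integral_sub hi' hi, laplace_BA h0 hle hs, integral_exp_mul_complex_Ioi hre 0]
  unfold HA
  rw [hGe _ hs1]
  have hc' : (c : ℂ) ≠ 0 := by exact_mod_cast hc.ne'
  simp only [add_sub_cancel_right, ofReal_zero, mul_zero, Complex.exp_zero]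
  field_simp
  ring

/-- **Wiener-Ikehara** for a nonnegative sequence dominated by the von Mangoldt function. -/
theorem wiener_ikehara (h0 : ∀ n, 0 ≤ a n) (hle : ∀ n, a n ≤ vonMangoldt n) (hc : 0 < c)
    {G : ℂ → ℂ} (hG : ContinuousOn G {z | 1 ≤ z.re})
    (hGe : ∀ z : ℂ, 1 < z.re → G z = LSeries (fun n => ((a n : ℝ) : ℂ)) z - c / (z - 1)) :
    Tendsto (fun x : ℝ => SA a x / x) atTop (𝓝 c) := by
  have hB : Tendsto (BA a c) atTop (𝓝 1) := by
    refine tauberian (measurable_BA h0) (BA_nonneg h0 hc) (BA_le hle hc) (BA_mono h0 hc)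
      fun l hl => ?_
    refine smooth_tendsto (b := fun u => BA a c u - 1) (C := (Real.log 4 + 4) / c + 1)
      (H := HA G c) ((measurable_BA h0).sub_const 1) ?_ (continuousOn_HA hG)
      (fun s hs => laplace_BA_sub_one h0 hle hc hGe hs) hl
    intro u
    have h1 := BA_nonneg h0 hc u
    have h2 := BA_le hle hc u
    rw [abs_le]
    constructor <;> linarith
  have h := (hB.comp Real.tendsto_log_atTop).mul_const c
  rw [one_mul] at h
  refine h.congr' ?_
  filter_upwards [eventually_gt_atTop 0] with x hx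
  simp only [Function.comp, BA]
  rw [Real.exp_log hx, Real.exp_neg, Real.exp_log hx]
  field_simp

end WI

section AP

open ArithmeticFunction.vonMangoldt

variable {q : ℕ} [NeZero q] {b : ZMod q}

/-- **PNT in arithmetic progressions**: `ψ(x; q, b) / x → 1 / φ(q)`. -/
theorem tendsto_residueClass_div (hb : IsUnit b) :
    Tendsto (fun x : ℝ => SA (residueClass b) x / x) atTop (𝓝 ((q.totient : ℝ)⁻¹)) := by
  have hφ : 0 < (q.totient : ℝ)⁻¹ := inv_pos.mpr (by exact_mod_cast q.totient.pos_of_neZero)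
  refine wiener_ikehara (residueClass_nonneg b) (residueClass_le b) hφ
    (G := LFunctionResidueClassAux b) (continuousOn_LFunctionResidueClassAux b) ?_
  intro z hz
  have := eqOn_LFunctionResidueClassAux hb hz
  rw [this]
  push_cast
  rfl

/-- Primes up to `x` in a residue class. -/
noncomputable def primesC (b : ZMod q) (x : ℝ) : Finset ℕ :=
  (Finset.Ioc 0 ⌊x⌋₊).filter (fun p : ℕ => p.Prime ∧ (p : ZMod q) = b)

/-- The Chebyshev function of a residue class. -/
noncomputable def thetaC (b : ZMod q) (x : ℝ) : ℝ := ∑ p ∈ primesC b x, Real.log p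

/-- The prime counting function of a residue class. -/
noncomputable def piC (b : ZMod q) (x : ℝ) : ℝ := ((primesC b x).card : ℝ)

omit [NeZero q] in
lemma primesC_subset (b : ZMod q) (x : ℝ) :
    primesC b x ⊆ (Finset.Ioc 0 ⌊x⌋₊).filter Nat.Prime := by
  intro p hp
  rw [primesC, Finset.mem_filter] at hp
  rw [Finset.mem_filter]
  exact ⟨hp.1, hp.2.1⟩

omit [NeZero q] in
lemma theta_eq_sum (x : ℝ) : theta x = ∑ p ∈ (Finset.Ioc 0 ⌊x⌋₊).filter Nat.Prime, Real.log p := rfl

omit [NeZero q] in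
lemma SA_residueClass_ge (b : ZMod q) (x : ℝ) : thetaC b x ≤ SA (residueClass b) x := by
  unfold SA thetaC primesC
  rw [Finset.sum_filter]
  refine Finset.sum_le_sum fun n _ => ?_
  split_ifs with h
  · have : residueClass b n = Real.log n := by
      unfold residueClass
      rw [Set.indicator_of_mem (show n ∈ {n : ℕ | (n : ZMod q) = b} from h.2)]
      exact ArithmeticFunction.vonMangoldt_apply_prime h.1
    rw [this]
  · exact residueClass_nonneg b n

omit [NeZero q] in
lemma SA_sub_thetaC_le (b : ZMod q) (x : ℝ) :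
    SA (residueClass b) x - thetaC b x ≤ psi x - theta x := by
  rw [theta_eq_sum]
  unfold SA thetaC primesC psi
  rw [Finset.sum_filter, Finset.sum_filter, ← Finset.sum_sub_distrib, ← Finset.sum_sub_distrib]
  refine Finset.sum_le_sum fun n _ => ?_
  by_cases hp : n.Prime
  · by_cases hb : (n : ZMod q) = b
    · rw [if_pos ⟨hp, hb⟩, if_pos hp]
      have := residueClass_le b n
      linarith
    · rw [if_neg (fun h => hb h.2), if_pos hp]
      have : residueClass b n = 0 := by
        unfold residueClass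
        rw [Set.indicator_of_notMem]
        exact hb
      rw [this, ArithmeticFunction.vonMangoldt_apply_prime hp]
      linarith
  · rw [if_neg (fun h => hp h.1), if_neg hp]
    have := residueClass_le b n
    linarith

/-- `θ(x; q, b) / x → 1 / φ(q)`. -/
theorem tendsto_theta_class_div (hb : IsUnit b) :
    Tendsto (fun x : ℝ => thetaC b x / x) atTop (𝓝 ((q.totient : ℝ)⁻¹)) := by
  have h1 := tendsto_residueClass_div hb
  have h2 : Tendsto (fun x : ℝ => (psi x - theta x) / x) atTop (𝓝 0) := by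
    have := tendsto_psi_div.sub tendsto_theta_div
    rw [sub_self] at this
    refine this.congr fun x => ?_
    ring
  have h3 : Tendsto (fun x : ℝ => (SA (residueClass b) x - thetaC b x) / x) atTop (𝓝 0) := by
    refine squeeze_zero' ?_ ?_ h2
    · filter_upwards [eventually_gt_atTop 0] with x hx
      exact div_nonneg (by linarith [SA_residueClass_ge b x]) hx.le
    · filter_upwards [eventually_gt_atTop 0] with x hx
      exact div_le_div_of_nonneg_right (SA_sub_thetaC_le b x) hx.le
  have h4 := h1.sub h3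
  rw [sub_zero] at h4
  refine h4.congr fun x => ?_
  ring

omit [NeZero q] in
/-- Passing from `θ` to `π` for subsets of the primes. -/
lemma pi_sub_theta_bounds (b : ZMod q) {x : ℝ} (hx : 1 < x) :
    0 ≤ piC b x - thetaC b x / Real.log x ∧
      piC b x - thetaC b x / Real.log x ≤ Nat.primeCounting ⌊x⌋₊ - theta x / Real.log x := by
  have hl : 0 < Real.log x := Real.log_pos hx
  have e1 : piC b x - thetaC b x / Real.log x
      = ∑ p ∈ primesC b x, (1 - Real.log p / Real.log x) := by
    unfold piC thetaC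
    rw [Finset.sum_sub_distrib, Finset.sum_const, nsmul_eq_mul, mul_one, Finset.sum_div]
  have e2 : (Nat.primeCounting ⌊x⌋₊ : ℝ) - theta x / Real.log x
      = ∑ p ∈ (Finset.Ioc 0 ⌊x⌋₊).filter Nat.Prime, (1 - Real.log p / Real.log x) := by
    rw [theta_eq_sum, Finset.sum_sub_distrib, Finset.sum_const, nsmul_eq_mul, mul_one,
      Finset.sum_div]
    congr 2
    rw [Nat.primeCounting, Nat.primeCounting', Nat.count_eq_card_filter_range]
    congr 1
    ext p
    simp only [Finset.mem_filter, Finset.mem_range, Finset.mem_Ioc]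
    constructor
    · rintro ⟨h1, h2⟩; exact ⟨⟨h2.pos, by omega⟩, h2⟩
    · rintro ⟨h1, h2⟩; exact ⟨by omega, h2⟩
  have hnn : ∀ p ∈ (Finset.Ioc 0 ⌊x⌋₊).filter Nat.Prime, 0 ≤ 1 - Real.log p / Real.log x := by
    intro p hp
    rw [Finset.mem_filter, Finset.mem_Ioc] at hp
    have h1 : (p : ℝ) ≤ x := (Nat.le_floor_iff (by linarith)).mp hp.1.2
    have h2 : Real.log p ≤ Real.log x :=
      Real.log_le_log (by exact_mod_cast hp.1.1) h1
    have h3 : Real.log p / Real.log x ≤ 1 := by rw [div_le_one hl]; exact h2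
    linarith
  rw [e1, e2]
  constructor
  · exact Finset.sum_nonneg fun p hp => hnn p (primesC_subset b x hp)
  · exact Finset.sum_le_sum_of_subset_of_nonneg (primesC_subset b x) fun p hp _ => hnn p hp

/-- **PNT in arithmetic progressions**: `π(x; q, b) log x / x → 1 / φ(q)`. -/
theorem tendsto_primeCounting_class (hb : IsUnit b) :
    Tendsto (fun x : ℝ => piC b x * Real.log x / x) atTop (𝓝 ((q.totient : ℝ)⁻¹)) := by
  have h1 := tendsto_theta_class_div hb
  have h2 : Tendsto (fun x : ℝ => ((Nat.primeCounting ⌊x⌋₊ : ℝ) - theta x / Real.log x) *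
      (Real.log x / x)) atTop (𝓝 0) := by
    have := tendsto_primeCounting.sub tendsto_theta_div
    rw [sub_self] at this
    refine this.congr' ?_
    filter_upwards [eventually_gt_atTop 1] with x hx
    have hl : Real.log x ≠ 0 := (Real.log_pos hx).ne'
    have hx0 : x ≠ 0 := by linarith
    field_simp
  have h3 : Tendsto (fun x : ℝ => (piC b x - thetaC b x / Real.log x) *
      (Real.log x / x)) atTop (𝓝 0) := by
    refine squeeze_zero' ?_ ?_ h2
    · filter_upwards [eventually_gt_atTop 1] with x hx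
      have hl : 0 < Real.log x := Real.log_pos hx
      exact mul_nonneg (pi_sub_theta_bounds b hx).1 (by positivity)
    · filter_upwards [eventually_gt_atTop 1] with x hx
      have hl : 0 < Real.log x := Real.log_pos hx
      exact mul_le_mul_of_nonneg_right (pi_sub_theta_bounds b hx).2 (by positivity)
  have h4 := h3.add h1
  rw [zero_add] at h4
  refine h4.congr' ?_
  filter_upwards [eventually_gt_atTop 1] with x hx
  have hl : Real.log x ≠ 0 := (Real.log_pos hx).ne'
  have hx0 : x ≠ 0 := by linarith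
  field_simp
  ring

end AP

end Pool.Agent.PNTAP
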